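import Pool.Agent.K7.H47.DM.Stm4

set_option autoImplicit false

open Finset

namespace Pool.Agent.K7.H59.D4

open Pool.Agent.K7.H47.DM4

variable {ι : Type} [Fintype ι] [DecidableEq ι]

theorem core (t j cl : ι → ℕ) (ht : Function.Injective t) (σ σ' : Equiv.Perm ι) (h : Feas t j σ)
    (h' : Feas t j σ') (hopt : ∀ τ, Feas t j τ → Wt t cl τ ≤ Wt t cl σ) (r : ι)
    (hr : ∀ r', t r' < t r → cl (σ.symm r') = cl (σ'.symm r'))
    (hlt : cl (σ'.symm r) < cl (σ.symm r)) : False := by
  have hSS : univ.filter (fun q => t q ≤ t r ∧ cl (σ.symm q) = cl (σ'.symm r)) ⊂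
      univ.filter (fun q => t q ≤ t r ∧ cl (σ'.symm q) = cl (σ'.symm r)) := by
    refine Finset.ssubset_iff_subset_ne.2 ⟨?_, ?_⟩
    · intro q hq
      obtain ⟨-, h1, h2⟩ := Finset.mem_filter.1 hq
      have h3 : q ≠ r := by
        rintro rfl
        omega
      have h4 : t q < t r := lt_of_le_of_ne h1 fun e => h3 (ht e)
      exact Finset.mem_filter.2 ⟨Finset.mem_univ _, h1, by rw [← hr q h4]; exact h2⟩
    · intro e
      have h1 : r ∈ univ.filter (fun q => t q ≤ t r ∧ cl (σ'.symm q) = cl (σ'.symm r)) :=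
        Finset.mem_filter.2 ⟨Finset.mem_univ _, le_rfl, rfl⟩
      rw [← e] at h1
      have := (Finset.mem_filter.1 h1).2.2
      omega
  have hc := Finset.card_lt_card hSS
  rw [← Finset.card_image_of_injective _ σ.symm.injective,
    ← Finset.card_image_of_injective (univ.filter _) σ'.symm.injective] at hc
  obtain ⟨x, hx', hx⟩ := Finset.exists_mem_notMem_of_card_lt_card hc
  obtain ⟨q, hq, hqx⟩ := Finset.mem_image.1 hx'
  obtain ⟨-, hq1, hq2⟩ := Finset.mem_filter.1 hq
  have hq' : σ' x = q := by rw [← hqx]; simp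
  have hclx : cl x = cl (σ'.symm r) := by rw [← hqx]; exact hq2
  have htx : t r < t (σ x) := by
    by_contra hcon
    refine hx (Finset.mem_image.2 ⟨σ x, Finset.mem_filter.2 ⟨Finset.mem_univ _, by omega, ?_⟩, by simp⟩)
    simp [hclx]
  have hjx : j x ≤ t r := (h' x).trans (by rw [hq']; exact hq1)
  obtain ⟨y, hy⟩ : ∃ y, y = σ.symm r := ⟨_, rfl⟩
  have hσy : σ y = r := by rw [hy]; simp
  have hcly : cl x < cl y := by rw [hclx, hy]; exact hlt
  have hxy : x ≠ y := by rintro rfl; exact lt_irrefl _ hcly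
  have hτx : ((Equiv.swap x y).trans σ) x = r := by simp [hσy]
  have hτy : ((Equiv.swap x y).trans σ) y = σ x := by simp
  have hτc : ∀ c, c ≠ x → c ≠ y → ((Equiv.swap x y).trans σ) c = σ c := by
    intro c h1 h2
    simp [Equiv.swap_apply_of_ne_of_ne h1 h2]
  have hfe : Feas t j ((Equiv.swap x y).trans σ) := by
    intro c
    by_cases h1 : c = x
    · subst h1; rw [hτx]; exact hjx
    · by_cases h2 : c = y
      · subst h2; rw [hτy]
        have := h c
        rw [hσy] at this
        omega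
      · rw [hτc c h1 h2]; exact h c
  have hw := hopt _ hfe
  unfold Wt at hw
  have hye : y ∈ univ.erase x := Finset.mem_erase.2 ⟨hxy.symm, Finset.mem_univ _⟩
  rw [← Finset.add_sum_erase univ _ (Finset.mem_univ x), ← Finset.add_sum_erase _ _ hye,
    ← Finset.add_sum_erase univ (fun c => cl c * t (σ c)) (Finset.mem_univ x),
    ← Finset.add_sum_erase _ (fun c => cl c * t (σ c)) hye] at hw
  have hrest : ∑ c ∈ (univ.erase x).erase y, cl c * t (((Equiv.swap x y).trans σ) c) =
      ∑ c ∈ (univ.erase x).erase y, cl c * t (σ c) := by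
    refine Finset.sum_congr rfl fun c hcc => ?_
    have h1 := Finset.mem_erase.1 hcc
    have h2 := Finset.mem_erase.1 h1.2
    rw [hτc c h2.1 h1.1]
  rw [hrest, hτx, hτy, hσy] at hw
  obtain ⟨a, ha⟩ := Nat.exists_eq_add_of_lt hcly
  obtain ⟨b, hb⟩ := Nat.exists_eq_add_of_lt htx
  rw [ha, hb] at hw
  nlinarith

theorem u : StU := by
  intro ι _ _ t j cl ht σ σ' h h' ho ho'
  by_contra hcon
  push Not at hcon
  obtain ⟨r, hr, hmin⟩ := WellFounded.has_min (measure t).wf
    {r | cl (σ.symm r) ≠ cl (σ'.symm r)} hcon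
  have hm : ∀ r', t r' < t r → cl (σ.symm r') = cl (σ'.symm r') := by
    intro r' hr'
    by_contra hne
    exact hmin r' hne hr'
  rcases lt_or_gt_of_ne hr with h1 | h1
  · exact core t j cl ht σ' σ h' h ho' r (fun r' hr' => (hm r' hr').symm) h1
  · exact core t j cl ht σ σ' h h' ho r hm h1

end Pool.Agent.K7.H59.D4
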